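import Pool.Agent.H26.NO.Targets

/-!
# MP_0cd084_nt, board nok: row CJ

Few coincidences, for one index.
-/

set_option autoImplicit false

open Finset

namespace Pool.Agent.H74.NOK

open Pool.Agent.H26.NO
open Pool.Agent.H73.NK (fm)

theorem sum_inj {α β : Type} [DecidableEq β] (P : Finset α) (T : Finset β) (F : α → ℝ)
    (G : β → ℝ) (Φ : α → β) (h1 : ∀ x ∈ P, Φ x ∈ T) (h2 : Set.InjOn Φ P)
    (h3 : ∀ x ∈ P, F x ≤ G (Φ x)) (h4 : ∀ z ∈ T, 0 ≤ G z) :
    ∑ x ∈ P, F x ≤ ∑ z ∈ T, G z := by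
  calc ∑ x ∈ P, F x ≤ ∑ x ∈ P, G (Φ x) := Finset.sum_le_sum h3
    _ = ∑ z ∈ P.image Φ, G z := (Finset.sum_image h2).symm
    _ ≤ _ := Finset.sum_le_sum_of_subset_of_nonneg (Finset.image_subset_iff.2 h1)
      (fun z hz _ => h4 z hz)

theorem om_prod {ι : Type} (s : Finset ι) (f : ι → ℕ) (h : ∀ i ∈ s, f i ≠ 0) :
    ArithmeticFunction.cardFactors (∏ i ∈ s, f i) =
      ∑ i ∈ s, ArithmeticFunction.cardFactors (f i) := by
  classical
  induction s using Finset.induction_on with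
  | empty => simp
  | insert a s ha ih =>
    have h1 : ∀ i ∈ s, f i ≠ 0 := fun i hi => h i (Finset.mem_insert_of_mem hi)
    rw [Finset.prod_insert ha, Finset.sum_insert ha, ArithmeticFunction.cardFactors_mul
      (h a (Finset.mem_insert_self _ _)) (Finset.prod_ne_zero_iff.2 h1), ih h1]

theorem prod_upd {r : ℕ} (f : Fin r → ℕ) (i : Fin r) (c : ℕ) :
    ∏ x, Function.update f i c x = c * ∏ x ∈ univ.erase i, f x := by
  classical
  rw [← Finset.mul_prod_erase univ _ (Finset.mem_univ i), Function.update_self]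
  congr 1
  refine Finset.prod_congr rfl fun x hx => ?_
  rw [Function.update_of_ne (Finset.ne_of_mem_erase hx)]

theorem sum_upd {r : ℕ} (f : Fin r → ℕ) (i : Fin r) (c : ℕ) :
    ∑ x, Function.update f i c x = c + ∑ x ∈ univ.erase i, f x := by
  classical
  rw [← Finset.add_sum_erase univ _ (Finset.mem_univ i), Function.update_self]
  congr 1
  refine Finset.sum_congr rfl fun x hx => ?_
  rw [Function.update_of_ne (Finset.ne_of_mem_erase hx)]

theorem mem_PA {L M : Finset ℕ} {x : ℕ} : x ∈ PA L M ↔ ∃ p ∈ L, ∃ m ∈ M, x = p * m := by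
  unfold PA
  rw [Finset.mem_image]
  constructor
  · rintro ⟨⟨p, m⟩, h, rfl⟩
    obtain ⟨h1, h2⟩ := Finset.mem_product.1 h
    exact ⟨p, h1, m, h2, rfl⟩
  · rintro ⟨p, h1, m, h2, rfl⟩
    exact ⟨(p, m), Finset.mem_product.2 ⟨h1, h2⟩, rfl⟩

/-- the code of a coincidence -/
theorem exists_code (hPD : T_PD) {r : ℕ} (L : Fin r → Finset ℕ) (M : Finset ℕ) (j : Fin r)
    (hL : ∀ j, ∀ p ∈ L j, p.Prime) (hM : ∀ j, ∀ p ∈ L j, ∀ m ∈ M, 1 ≤ m ∧ m < p)
    (hdis : ∀ i j, i ≠ j → Disjoint (L i) (L j)) (a a' : Fin r → ℕ)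
    (ha : a ∈ Fintype.piFinset (fun j => PA (L j) M))
    (ha' : a' ∈ Fintype.piFinset (fun j => PA (L j) M)) (hj : a' j ≠ a j)
    (hQ : Qf a' = Qf a) :
    ∃ (i0 : Fin r) (m : ℕ) (b f : Fin r → ℕ) (p : ℕ), m ∈ M ∧
      b ∈ Fintype.piFinset (Function.update (fun j => PA (L j) M) j {1}) ∧
      f ∈ fm r (m * ∏ i, b i) ∧ p ∈ L j ∧ a = Function.update b j (p * m) ∧
      a' = Function.update f i0 (p * f i0) ∧ m ≠ f i0 ∧ Qf a = p * (m * ∏ i, b i) := by
  classical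
  rw [Fintype.mem_piFinset] at ha ha'
  obtain ⟨p, hp, m, hm, hpm⟩ := mem_PA.1 (ha j)
  have hpp := hL j p hp
  have hpos : ∀ x : Fin r → ℕ, (∀ i, x i ∈ PA (L i) M) → ∀ i, x i ≠ 0 := by
    intro x hx i
    obtain ⟨q, hq, n, hn, hqn⟩ := mem_PA.1 (hx i)
    rw [hqn]
    have h1 := (hL i q hq).pos
    have h2 := (hM i q hq n hn).1
    positivity
  have hQa : Qf a = a j * ∏ x ∈ univ.erase j, a x :=
    (Finset.mul_prod_erase univ a (Finset.mem_univ j)).symm
  have hdvd : p ∣ Qf a' := by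
    rw [hQ, hQa, hpm, mul_assoc]
    exact Dvd.intro _ rfl
  obtain ⟨i0, -, hi0⟩ := (hpp.prime.dvd_finsetProd_iff a').1 hdvd
  obtain ⟨n', hn'⟩ := hi0
  have hb : ∏ i, Function.update a j 1 i = ∏ x ∈ univ.erase j, a x := by
    rw [prod_upd, one_mul]
  have hQb : Qf a = p * (m * ∏ i, Function.update a j 1 i) := by
    rw [hQa, hb, hpm, mul_assoc]
  refine ⟨i0, m, Function.update a j 1, Function.update a' i0 n', p, hm, ?_, ?_, hp, ?_, ?_, ?_,
    hQb⟩
  · rw [Fintype.mem_piFinset]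
    intro i
    by_cases hij : i = j
    · rw [hij, Function.update_self, Function.update_self]
      exact Finset.mem_singleton_self _
    · rw [Function.update_of_ne hij, Function.update_of_ne hij]
      exact ha i
  · have hprod : ∏ i, Function.update a' i0 n' i = m * ∏ i, Function.update a j 1 i := by
      have h1 : Qf a' = p * ∏ i, Function.update a' i0 n' i := by
        rw [prod_upd, ← mul_assoc, ← hn']
        exact (Finset.mul_prod_erase univ a' (Finset.mem_univ i0)).symm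
      rw [hQ, hQb] at h1
      exact (Nat.eq_of_mul_eq_mul_left hpp.pos h1).symm
    unfold fm
    rw [Finset.mem_filter, Fintype.mem_piFinset]
    refine ⟨fun i => ?_, hprod⟩
    rw [Nat.mem_divisors]
    refine ⟨?_, ?_⟩
    · rw [← hprod]
      exact Finset.dvd_prod_of_mem _ (Finset.mem_univ i)
    · intro h0
      rw [h0, mul_zero, hQa] at hQb
      rcases mul_eq_zero.1 hQb with h | h
      · exact hpos a ha j h
      · obtain ⟨x, -, hx⟩ := Finset.prod_eq_zero_iff.1 h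
        exact hpos a ha x hx
  · rw [Function.update_idem, ← hpm, Function.update_eq_self]
  · rw [Function.update_self, Function.update_idem, ← hn', Function.update_eq_self]
  · rw [Function.update_self]
    intro hmn
    have h1 : a' i0 = a j := by rw [hn', hpm, hmn]
    by_cases hi : i0 = j
    · exact hj (by rw [← h1, hi])
    · have h2 := hPD (L i0) (L j) M (hL i0) (hL j) (hM i0) (hM j) (hdis i0 j hi)
      exact Finset.disjoint_left.1 h2 (ha' i0) (h1 ▸ ha j)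

theorem pf_CJ (hTF : T_TF) (hPS : T_PS) (hPD : T_PD) : T_CJ := by
  classical
  intro r w L M E θ j hr hE hθ hL hM hMw hdis hLθ
  have hLp : ∀ j, ∀ p ∈ L j, p.Prime := fun j p hp => (hL j p hp).1
  set A : Fin r → Finset ℕ := fun j => PA (L j) M with hA
  have hLne : (L j).Nonempty := by
    rw [Finset.nonempty_iff_ne_empty]
    intro h0
    have := hLθ j
    rw [h0, Finset.sum_empty] at this
    linarith
  obtain ⟨p0, hp0⟩ := hLne
  have hM1 : ∀ m ∈ M, 1 ≤ m := fun m hm => (hM j p0 hp0 m hm).1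
  set B := Fintype.piFinset (Function.update A j {1}) with hB
  have hBmem : ∀ b ∈ B, ∀ i, b i ≠ 0 ∧ ArithmeticFunction.cardFactors (b i) ≤
      if i = j then 0 else w + 1 := by
    intro b hb i
    have h1 := Fintype.mem_piFinset.1 hb i
    by_cases hij : i = j
    · rw [hij, Function.update_self, Finset.mem_singleton] at h1
      rw [hij, h1, if_pos rfl]
      simp
    · rw [Function.update_of_ne hij] at h1
      obtain ⟨q, hq, n, hn, hqn⟩ := mem_PA.1 h1
      have h2 := hLp i q hq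
      have h3 := hM1 n hn
      rw [hqn, if_neg hij]
      refine ⟨by have := h2.pos; positivity, ?_⟩
      rw [ArithmeticFunction.cardFactors_mul h2.ne_zero (by omega),
        ArithmeticFunction.cardFactors_apply_prime h2, add_comm]
      exact Nat.add_le_add_right (hMw n hn) 1
  have hKpos : ∀ m ∈ M, ∀ b ∈ B, 0 < m * ∏ i, b i := by
    intro m hm b hb
    exact Nat.mul_pos (hM1 m hm)
      (Nat.pos_of_ne_zero (Finset.prod_ne_zero_iff.2 fun i _ => (hBmem b hb i).1))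
  have hfm : ∀ m ∈ M, ∀ b ∈ B, ((fm r (m * ∏ i, b i)).card : ℝ) ≤ (r : ℝ) ^ (r * (w + 1)) := by
    intro m hm b hb
    have h1 := hTF r (m * ∏ i, b i) (hKpos m hm b hb)
    have h2 : ArithmeticFunction.cardFactors (m * ∏ i, b i) ≤ r * (w + 1) := by
      rw [ArithmeticFunction.cardFactors_mul (by have := hM1 m hm; omega)
        (Finset.prod_ne_zero_iff.2 fun i _ => (hBmem b hb i).1),
        om_prod _ _ fun i _ => (hBmem b hb i).1]
      have h3 : ∑ i, ArithmeticFunction.cardFactors (b i) ≤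
          ∑ i : Fin r, if i = j then 0 else w + 1 :=
        Finset.sum_le_sum fun i _ => (hBmem b hb i).2
      have h4 : ∑ i : Fin r, (if i = j then 0 else w + 1) = (r - 1) * (w + 1) := by
        rw [← Finset.add_sum_erase univ _ (Finset.mem_univ j), if_pos rfl, zero_add]
        rw [Finset.sum_congr rfl (g := fun _ => w + 1) (fun x hx =>
          if_neg (Finset.ne_of_mem_erase hx)), Finset.sum_const,
          Finset.card_erase_of_mem (Finset.mem_univ j), Finset.card_univ, Fintype.card_fin,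
          smul_eq_mul]
      rw [h4] at h3
      have h5 := hMw m hm
      obtain ⟨s, rfl⟩ : ∃ s, r = s + 1 := ⟨r - 1, by omega⟩
      rw [Nat.add_sub_cancel] at h3
      calc ArithmeticFunction.cardFactors m + ∑ i, ArithmeticFunction.cardFactors (b i)
          ≤ w + s * (w + 1) := Nat.add_le_add h5 h3
        _ ≤ (s + 1) * (w + 1) := by
          rw [Nat.add_mul, one_mul]
          omega
    calc ((fm r (m * ∏ i, b i)).card : ℝ)
        ≤ ((r ^ ArithmeticFunction.cardFactors (m * ∏ i, b i) : ℕ) : ℝ) := by exact_mod_cast h1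
      _ ≤ ((r ^ (r * (w + 1)) : ℕ) : ℝ) := by exact_mod_cast Nat.pow_le_pow_right hr h2
      _ = _ := by push_cast; rfl
  set S := Fintype.piFinset A with hS
  set P := (S ×ˢ S).filter (fun x => x.2 j ≠ x.1 j ∧ Qf x.2 = Qf x.1 ∧ Sg x.2 = Sg x.1) with hP
  have hsum : ∑ a ∈ S, ∑ _a' ∈ S.filter
      (fun a' => a' j ≠ a j ∧ Qf a' = Qf a ∧ Sg a' = Sg a), (1 : ℝ) / Qf a =
      ∑ x ∈ P, (1 : ℝ) / Qf x.1 := by
    rw [hP, Finset.sum_filter, Finset.sum_product]
    exact Finset.sum_congr rfl fun a _ => Finset.sum_filter _ _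
  rw [hsum]
  let T : Finset (Σ _ : Fin r × ℕ × (Fin r → ℕ), (Fin r → ℕ)) :=
    ((univ : Finset (Fin r)) ×ˢ (M ×ˢ B)).sigma fun y => fm r (y.2.1 * ∏ i, y.2.2 i)
  let G : (Σ _ : Fin r × ℕ × (Fin r → ℕ), (Fin r → ℕ)) → ℝ := fun z =>
    1 / (E * ((z.1.2.1 * ∏ i, z.1.2.2 i : ℕ) : ℝ))
  have hne : Nonempty (Σ _ : Fin r × ℕ × (Fin r → ℕ), (Fin r → ℕ)) :=
    ⟨⟨(j, 0, fun _ => 0), fun _ => 0⟩⟩
  have hex : ∀ x ∈ P, ∃ z : (Σ _ : Fin r × ℕ × (Fin r → ℕ), (Fin r → ℕ)), z ∈ T ∧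
      ∃ p, p ∈ L j ∧ x.1 = Function.update z.1.2.2 j (p * z.1.2.1) ∧
        x.2 = Function.update z.2 z.1.1 (p * z.2 z.1.1) ∧ z.1.2.1 ≠ z.2 z.1.1 ∧
        Qf x.1 = p * (z.1.2.1 * ∏ i, z.1.2.2 i) := by
    rintro ⟨a, a'⟩ hx
    obtain ⟨h1, h2, h3, h4⟩ := Finset.mem_filter.1 hx
    obtain ⟨h5, h6⟩ := Finset.mem_product.1 h1
    obtain ⟨i0, m, b, f, p, hm, hb, hf, hp, e1, e2, e3, e4⟩ :=
      exists_code hPD L M j hLp hM hdis a a' h5 h6 h2 h3
    refine ⟨⟨(i0, m, b), f⟩, ?_, p, hp, e1, e2, e3, e4⟩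
    exact Finset.mem_sigma.2 ⟨Finset.mem_product.2 ⟨Finset.mem_univ _,
      Finset.mem_product.2 ⟨hm, hb⟩⟩, hf⟩
  choose! Φ hΦT hΦ using hex
  have hmain : ∑ x ∈ P, (1 : ℝ) / Qf x.1 ≤ ∑ z ∈ T, G z := by
    refine sum_inj P T _ G Φ hΦT ?_ ?_ ?_
    · intro x hx y hy hxy
      obtain ⟨p, hp, x1, x2, x3, x4⟩ := hΦ x hx
      obtain ⟨q, hq, y1, y2, y3, y4⟩ := hΦ y hy
      rw [← hxy] at y1 y2 y3 y4
      have s1 : Sg x.2 = Sg x.1 := (Finset.mem_filter.1 hx).2.2.2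
      have s2 : Sg y.2 = Sg y.1 := (Finset.mem_filter.1 hy).2.2.2
      unfold Sg at s1 s2
      rw [x1, x2, sum_upd, sum_upd] at s1
      rw [y1, y2, sum_upd, sum_upd] at s2
      have hpq : p = q := by
        zify at s1 s2
        have h1 : ((p : ℤ) - q) * (((Φ x).2 (Φ x).1.1 : ℕ) - ((Φ x).1.2.1 : ℕ)) = 0 := by
          linear_combination s1 - s2
        rcases mul_eq_zero.1 h1 with h | h
        · have : (p : ℤ) = q := by linarith
          exact_mod_cast this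
        · exfalso
          apply x3
          have : ((Φ x).1.2.1 : ℤ) = ((Φ x).2 (Φ x).1.1 : ℕ) := by linarith
          exact_mod_cast this
      refine Prod.ext ?_ ?_
      · rw [x1, y1, hpq]
      · rw [x2, y2, hpq]
    · intro x hx
      obtain ⟨p, hp, x1, x2, x3, x4⟩ := hΦ x hx
      obtain ⟨h1, h2⟩ := Finset.mem_sigma.1 (hΦT x hx)
      obtain ⟨-, h3⟩ := Finset.mem_product.1 h1
      obtain ⟨h4, h5⟩ := Finset.mem_product.1 h3
      have hK := hKpos _ h4 _ h5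
      show (1 : ℝ) / Qf x.1 ≤ 1 / (E * (((Φ x).1.2.1 * ∏ i, (Φ x).1.2.2 i : ℕ) : ℝ))
      rw [x4, Nat.cast_mul p]
      have hK' : (0 : ℝ) < (((Φ x).1.2.1 * ∏ i, (Φ x).1.2.2 i : ℕ) : ℝ) := by exact_mod_cast hK
      exact one_div_le_one_div_of_le (mul_pos hE hK')
        (mul_le_mul_of_nonneg_right (hL j p hp).2 hK'.le)
    · intro z _
      show 0 ≤ 1 / (E * ((z.1.2.1 * ∏ i, z.1.2.2 i : ℕ) : ℝ))
      positivity
  refine hmain.trans ?_
  -- the sum over the codes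
  have hT : ∑ z ∈ T, G z ≤ ∑ y ∈ (univ : Finset (Fin r)) ×ˢ (M ×ˢ B),
      (r : ℝ) ^ (r * (w + 1)) * (1 / (E * ((y.2.1 * ∏ i, y.2.2 i : ℕ) : ℝ))) := by
    show ∑ z ∈ ((univ : Finset (Fin r)) ×ˢ (M ×ˢ B)).sigma
      (fun y => fm r (y.2.1 * ∏ i, y.2.2 i)), G z ≤ _
    rw [Finset.sum_sigma]
    refine Finset.sum_le_sum fun y hy => ?_
    obtain ⟨-, h3⟩ := Finset.mem_product.1 hy
    obtain ⟨h4, h5⟩ := Finset.mem_product.1 h3
    show ∑ _f ∈ fm r (y.2.1 * ∏ i, y.2.2 i),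
      (1 / (E * ((y.2.1 * ∏ i, y.2.2 i : ℕ) : ℝ))) ≤ _
    rw [Finset.sum_const, nsmul_eq_mul]
    exact mul_le_mul_of_nonneg_right (hfm _ h4 _ h5) (by positivity)
  refine hT.trans ?_
  rw [Finset.sum_product]
  show ∑ _x : Fin r, ∑ y ∈ M ×ˢ B, (r : ℝ) ^ (r * (w + 1)) *
    (1 / (E * ((y.1 * ∏ i, y.2 i : ℕ) : ℝ))) ≤ _
  rw [Finset.sum_const, Finset.card_univ, Fintype.card_fin, nsmul_eq_mul, ← Finset.mul_sum]
  have hprodsum : ∑ y ∈ M ×ˢ B, (1 / (E * ((y.1 * ∏ i, y.2 i : ℕ) : ℝ))) =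
      (1 / E) * ((∑ m ∈ M, (1 : ℝ) / m) * ∑ b ∈ B, ∏ i, (1 : ℝ) / b i) := by
    rw [Finset.sum_mul_sum, Finset.sum_product, Finset.mul_sum]
    refine Finset.sum_congr rfl fun m _ => ?_
    rw [Finset.mul_sum]
    refine Finset.sum_congr rfl fun b _ => ?_
    rw [Finset.prod_div_distrib, Finset.prod_const_one]
    push_cast
    rw [one_div_mul_one_div, one_div_mul_one_div]
  rw [hprodsum]
  have hBs : ∑ b ∈ B, ∏ i, (1 : ℝ) / b i = ∏ i, ∑ x ∈ Function.update A j {1} i, (1 : ℝ) / x := by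
    rw [Finset.prod_univ_sum]
  have hmq : mq A = ∏ i, ∑ x ∈ A i, (1 : ℝ) / x := by
    unfold mq
    rw [Finset.prod_univ_sum]
    refine Finset.sum_congr rfl fun a _ => ?_
    unfold Qf
    rw [Finset.prod_div_distrib, Finset.prod_const_one]
    push_cast
    rfl
  set R := ∏ i ∈ univ.erase j, ∑ x ∈ A i, (1 : ℝ) / x with hR
  have hBR : ∑ b ∈ B, ∏ i, (1 : ℝ) / b i = R := by
    rw [hBs, ← Finset.mul_prod_erase univ _ (Finset.mem_univ j), Function.update_self,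
      Finset.sum_singleton, Nat.cast_one, div_one, one_mul, hR]
    refine Finset.prod_congr rfl fun i hi => ?_
    rw [Function.update_of_ne (Finset.ne_of_mem_erase hi)]
  have hmqR : mq A = ((∑ p ∈ L j, (1 : ℝ) / p) * ∑ m ∈ M, (1 : ℝ) / m) * R := by
    rw [hmq, ← Finset.mul_prod_erase univ _ (Finset.mem_univ j), hR]
    congr 1
    exact (hPS (L j) M (hLp j) (hM j)).2
  have hR0 : 0 ≤ R := by
    rw [hR]
    exact Finset.prod_nonneg fun i _ => Finset.sum_nonneg fun x _ => by positivity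
  have hμ0 : 0 ≤ ∑ m ∈ M, (1 : ℝ) / m := Finset.sum_nonneg fun x _ => by positivity
  have hkey : (∑ m ∈ M, (1 : ℝ) / m) * R ≤ mq A / θ := by
    rw [le_div_iff₀ hθ, hmqR]
    have := hLθ j
    nlinarith [mul_le_mul_of_nonneg_right this (mul_nonneg hμ0 hR0)]
  rw [hBR]
  have hfin : (r : ℝ) * ((r : ℝ) ^ (r * (w + 1)) * (1 / E * ((∑ m ∈ M, (1 : ℝ) / m) * R))) ≤
      (r : ℝ) * ((r : ℝ) ^ (r * (w + 1)) * (1 / E * (mq A / θ))) := by
    refine mul_le_mul_of_nonneg_left (mul_le_mul_of_nonneg_left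
      (mul_le_mul_of_nonneg_left hkey (by positivity)) (by positivity)) (by positivity)
  refine hfin.trans (le_of_eq ?_)
  field_simp

end Pool.Agent.H74.NOK
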